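import Pool.Agent.helper98.RPB.Defs

/-!
# Exact Egorov property and averaging for the tensor-product baker maps
-/

set_option autoImplicit false

open MeasureTheory Matrix
open scoped BigOperators ComplexConjugate

namespace Pool.Agent.helper64.RQ

open Pool.Agent.helper98.RPB

/-- A unitary matrix preserves the sum of the squared norms. -/
theorem EG_unitary {D : ℕ} (W : Matrix (Fin D) (Fin D) ℂ)
    (hW : W ∈ Matrix.unitaryGroup (Fin D) ℂ) (v : Fin D → ℂ) :
    ∑ a, ‖∑ y, W a y * v y‖ ^ 2 = ∑ y, ‖v y‖ ^ 2 := by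
  have key : ∀ u : Fin D → ℂ, ((∑ a, ‖u a‖ ^ 2 : ℝ) : ℂ) = star u ⬝ᵥ u := by
    intro u
    rw [dotProduct, Complex.ofReal_sum]
    refine Finset.sum_congr rfl fun a _ => ?_
    rw [Pi.star_apply, Complex.star_def, mul_comm, Complex.mul_conj, Complex.normSq_eq_norm_sq]
  have h1 : (fun a => ∑ y, W a y * v y) = W *ᵥ v := rfl
  have h2 : star (W *ᵥ v) ⬝ᵥ (W *ᵥ v) = star v ⬝ᵥ v := by
    rw [star_mulVec, dotProduct_mulVec, vecMul_vecMul]
    have h3 : Wᴴ * W = 1 := by
      have := Matrix.mem_unitaryGroup_iff'.1 hW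
      rwa [Matrix.star_eq_conjTranspose] at this
    rw [h3, vecMul_one]
  have h4 := key (fun a => ∑ y, W a y * v y)
  rw [h1, h2, ← key v] at h4
  exact_mod_cast h4

open Classical in
/-- The norm of the image under the baker map, on an event which does not involve the last
letter. -/
theorem EG_event {D k : ℕ} (W : Matrix (Fin D) (Fin D) ℂ)
    (hW : W ∈ Matrix.unitaryGroup (Fin D) ℂ) (θ : Word D (k + 1) → ℝ) (φ : Word D (k + 1) → ℂ)
    (Q : Word D k → Prop) :
    ∑ x : Word D (k + 1), (if Q (Fin.init x) then ‖bakerMap W θ φ x‖ ^ 2 else 0) =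
      ∑ y : Word D (k + 1), (if Q (Fin.tail y) then ‖φ y‖ ^ 2 else 0) := by
  have e1 := (Fin.snocEquiv (fun _ : Fin (k + 1) => Fin D)).sum_comp
    (fun x : Word D (k + 1) => if Q (Fin.init x) then ‖bakerMap W θ φ x‖ ^ 2 else 0)
  have e2 := (Fin.consEquiv (fun _ : Fin (k + 1) => Fin D)).sum_comp
    (fun y : Word D (k + 1) => if Q (Fin.tail y) then ‖φ y‖ ^ 2 else 0)
  rw [← e1, ← e2, Fintype.sum_prod_type_right, Fintype.sum_prod_type_right]
  refine Finset.sum_congr rfl fun z _ => ?_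
  have h1 : ∀ a : Fin D, Fin.init ((Fin.snocEquiv (fun _ : Fin (k + 1) => Fin D)) (a, z)) = z := by
    intro a
    simp [Fin.snocEquiv]
  have h2 : ∀ a : Fin D, Fin.tail ((Fin.consEquiv (fun _ : Fin (k + 1) => Fin D)) (a, z)) = z := by
    intro a
    simp [Fin.consEquiv]
  simp only [h1, h2]
  by_cases hQ : Q z
  · simp only [hQ, if_true]
    have h3 := EG_unitary W hW (fun y => φ (Fin.cons y z))
    rw [show (∑ a : Fin D, ‖φ ((Fin.consEquiv fun _ : Fin (k + 1) => Fin D) (a, z))‖ ^ 2) =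
      ∑ a : Fin D, ‖φ (Fin.cons a z)‖ ^ 2 from rfl, ← h3]
    refine Finset.sum_congr rfl fun a _ => ?_
    rw [bakerMap, h1, norm_mul]
    have h4 : ‖Complex.exp (2 * Real.pi * θ ((Fin.snocEquiv (fun _ : Fin (k + 1) => Fin D)) (a, z)) *
        Complex.I)‖ = 1 := by
      have := Complex.norm_exp_ofReal_mul_I
        (2 * Real.pi * θ ((Fin.snocEquiv (fun _ : Fin (k + 1) => Fin D)) (a, z)))
      rw [← this]
      push_cast
      rfl
    have h5 : ((Fin.snocEquiv (fun _ : Fin (k + 1) => Fin D)) (a, z)) (Fin.last k) = a := by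
      simp [Fin.snocEquiv]
    rw [h4, one_mul, h5]
  · simp only [hQ, if_false]

/-- The eigenvalue has modulus one. -/
theorem EG_norm_lam {D k : ℕ} (W : Matrix (Fin D) (Fin D) ℂ)
    (hW : W ∈ Matrix.unitaryGroup (Fin D) ℂ) (θ : Word D (k + 1) → ℝ) (ψ : Word D (k + 1) → ℂ)
    (h1 : ∑ x, ‖ψ x‖ ^ 2 = 1) (lam : ℂ) (h2 : bakerMap W θ ψ = fun x => lam * ψ x) :
    ‖lam‖ ^ 2 = 1 := by
  have h := EG_event W hW θ ψ (fun _ => True)
  simp only [if_true, h2, norm_mul, mul_pow] at h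
  rw [← Finset.mul_sum, h1, mul_one] at h
  exact h

theorem EG_occurs_init {D k l : ℕ} (x : Word D (k + 1)) (i : ℕ) (w : Word D l)
    (hi : i + l ≤ k) : Occurs x i w ↔ Occurs (Fin.init x) i w := by
  constructor
  · rintro ⟨h, h'⟩
    exact ⟨hi, fun j => by rw [← h' j]; rfl⟩
  · rintro ⟨h, h'⟩
    exact ⟨by omega, fun j => by rw [← h' j]; rfl⟩

theorem EG_occurs_tail {D k l : ℕ} (x : Word D (k + 1)) (i : ℕ) (w : Word D l) :
    Occurs x (i + 1) w ↔ Occurs (Fin.tail x) i w := by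
  constructor
  · rintro ⟨h, h'⟩
    refine ⟨by omega, fun j => ?_⟩
    rw [← h' j, Fin.tail]
    congr 1
    ext
    simp only [Fin.val_succ]
    omega
  · rintro ⟨h, h'⟩
    refine ⟨by omega, fun j => ?_⟩
    rw [← h' j, Fin.tail]
    congr 1
    ext
    simp only [Fin.val_succ]
    omega

theorem cylWeight_shift {D k l : ℕ} (W : Matrix (Fin D) (Fin D) ℂ)
    (hW : W ∈ Matrix.unitaryGroup (Fin D) ℂ) (θ : Word D (k + 1) → ℝ) (ψ : Word D (k + 1) → ℂ)
    (h : IsUnitEigenvector W θ ψ) (i : ℕ) (w : Word D l) (hi : i + 1 + l ≤ k + 1) :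
    cylWeight ψ i w = cylWeight ψ (i + 1) w := by
  classical
  obtain ⟨h1, lam, h2⟩ := h
  have h3 := EG_norm_lam W hW θ ψ h1 lam h2
  have h4 := EG_event W hW θ ψ (fun z => Occurs z i w)
  simp only [h2, norm_mul, mul_pow, h3, one_mul] at h4
  unfold cylWeight
  rw [Finset.sum_filter, Finset.sum_filter]
  simp only [EG_occurs_tail, EG_occurs_init _ i w (show i + l ≤ k by omega)]
  convert h4 using 1

/-- The weight does not depend on the position. -/
theorem EG_cylWeight_eq {D k l : ℕ} (W : Matrix (Fin D) (Fin D) ℂ)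
    (hW : W ∈ Matrix.unitaryGroup (Fin D) ℂ) (θ : Word D (k + 1) → ℝ) (ψ : Word D (k + 1) → ℂ)
    (h : IsUnitEigenvector W θ ψ) (w : Word D l) :
    ∀ i : ℕ, i + l ≤ k + 1 → cylWeight ψ i w = cylWeight ψ 0 w := by
  intro i
  induction i with
  | zero => intro _; rfl
  | succ i ih =>
    intro hi
    rw [← ih (by omega), cylWeight_shift W hW θ ψ h i w hi]

theorem EG_sum {D n l : ℕ} (ψ : Word D n → ℂ) (w : Word D l) :
    ∑ i ∈ Finset.range (n + 1 - l), cylWeight ψ i w = ∑ x, ‖ψ x‖ ^ 2 * (occ x w : ℝ) := by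
  classical
  unfold cylWeight occ
  simp only [Finset.sum_filter, Finset.card_filter]
  rw [Finset.sum_comm]
  refine Finset.sum_congr rfl fun x _ => ?_
  push_cast
  rw [Finset.mul_sum]
  refine Finset.sum_congr rfl fun i _ => ?_
  split_ifs <;> simp

theorem abs_cylWeight_sub_le {D k l : ℕ} (W : Matrix (Fin D) (Fin D) ℂ)
    (hW : W ∈ Matrix.unitaryGroup (Fin D) ℂ) (θ : Word D (k + 1) → ℝ) (ψ : Word D (k + 1) → ℂ)
    (h : IsUnitEigenvector W θ ψ) (i : ℕ) (w : Word D l) (hi : i + l ≤ k + 1) (ε : ℝ)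
    (hε : 0 ≤ ε) :
    |cylWeight ψ i w - (1 / (D : ℝ)) ^ l| ≤ ε + ∑ x ∈ atyp D (k + 1) l w ε, ‖ψ x‖ ^ 2 := by
  classical
  set m : ℕ := k + 1 + 1 - l with hm
  have hm1 : 1 ≤ m := by omega
  have hmpos : (0 : ℝ) < m := by exact_mod_cast hm1
  set r : ℝ := (1 / (D : ℝ)) ^ l with hr
  have hr0 : 0 ≤ r := by positivity
  have hr1 : r ≤ 1 := by
    refine pow_le_one₀ (by positivity) ?_
    rcases Nat.eq_zero_or_pos D with h0 | h0
    · simp [h0]
    · rw [div_le_one (by exact_mod_cast h0)]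
      exact_mod_cast h0
  have h1 := EG_sum ψ w
  have h2 : ∑ j ∈ Finset.range (k + 1 + 1 - l), cylWeight ψ j w = m * cylWeight ψ i w := by
    rw [Finset.sum_congr rfl (g := fun _ => cylWeight ψ i w), Finset.sum_const, Finset.card_range,
      nsmul_eq_mul]
    intro j hj
    have hj' : j < k + 1 + 1 - l := Finset.mem_range.1 hj
    rw [EG_cylWeight_eq W hW θ ψ h w j (by omega), EG_cylWeight_eq W hW θ ψ h w i hi]
  rw [h2] at h1
  have h3 : cylWeight ψ i w - r = ∑ x, ‖ψ x‖ ^ 2 * ((occ x w : ℝ) / m - r) := by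
    have h4 : cylWeight ψ i w = (∑ x, ‖ψ x‖ ^ 2 * (occ x w : ℝ)) / m := by
      rw [← h1]
      field_simp
    rw [h4]
    simp only [mul_sub, Finset.sum_sub_distrib]
    rw [← Finset.sum_mul, h.1, one_mul, Finset.sum_div]
    congr 1
    refine Finset.sum_congr rfl fun x _ => by ring
  rw [h3]
  have hocc : ∀ x : Word D (k + 1), |(occ x w : ℝ) / m - r| ≤ 1 := by
    intro x
    have h5 : (occ x w : ℝ) ≤ m := by
      have : occ x w ≤ m := by
        unfold occ
        refine (Finset.card_filter_le _ _).trans ?_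
        rw [Finset.card_range]
      exact_mod_cast this
    have h6 : (occ x w : ℝ) / m ≤ 1 := by
      rw [div_le_one hmpos]
      exact h5
    have h7 : 0 ≤ (occ x w : ℝ) / m := by positivity
    rw [abs_le]
    constructor <;> linarith
  calc |∑ x, ‖ψ x‖ ^ 2 * ((occ x w : ℝ) / m - r)|
      ≤ ∑ x, |‖ψ x‖ ^ 2 * ((occ x w : ℝ) / m - r)| := Finset.abs_sum_le_sum_abs _ _
    _ = ∑ x, ‖ψ x‖ ^ 2 * |(occ x w : ℝ) / m - r| := by
        refine Finset.sum_congr rfl fun x _ => ?_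
        rw [abs_mul, abs_of_nonneg (by positivity : (0 : ℝ) ≤ ‖ψ x‖ ^ 2)]
    _ ≤ ∑ x, (ε * ‖ψ x‖ ^ 2 + (if x ∈ atyp D (k + 1) l w ε then ‖ψ x‖ ^ 2 else 0)) := by
        refine Finset.sum_le_sum fun x _ => ?_
        have h8 : (0 : ℝ) ≤ ‖ψ x‖ ^ 2 := by positivity
        by_cases hx : x ∈ atyp D (k + 1) l w ε
        · rw [if_pos hx]
          have := mul_le_mul_of_nonneg_left (hocc x) h8
          nlinarith [mul_nonneg hε h8]
        · rw [if_neg hx, add_zero]
          have h9 : |(occ x w : ℝ) / m - r| ≤ ε := by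
            by_contra hcon
            push Not at hcon
            apply hx
            unfold atyp
            rw [Finset.mem_filter]
            exact ⟨Finset.mem_univ _, hcon⟩
          have := mul_le_mul_of_nonneg_left h9 h8
          linarith
    _ = ε + ∑ x ∈ atyp D (k + 1) l w ε, ‖ψ x‖ ^ 2 := by
        rw [Finset.sum_add_distrib, ← Finset.mul_sum, h.1, mul_one, Finset.sum_ite_mem,
          Finset.univ_inter]

end Pool.Agent.helper64.RQ
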